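import Mathlib
import Pool.Agent.H57.Code.Lp
import Pool.Agent.H64.Pent.Defs

set_option autoImplicit false

/-!
From a faithful circuit cover of a sub-weight of a permutation graph to letters at the matching edges
of weight 2 (MP_a46c6f_co).
-/

namespace Pool.Agent.H6.Her

open SimpleGraph Pool.Agent.H5.Goddyn Pool.Agent.H98.Code Pool.Agent.H57.Code Pool.Agent.H64.Pent

open Classical in
/-- the indicator of a proposition in `ZMod 2` -/
noncomputable def ind (P : Prop) : ZMod 2 := if P then 1 else 0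

lemma ind_pos {P : Prop} (h : P) : ind P = 1 := by simp [ind, h]

lemma ind_neg {P : Prop} (h : ¬ P) : ind P = 0 := by simp [ind, h]

lemma ind_one {P : Prop} (h : ind P = 1) : P := by
  by_contra hP
  rw [ind_neg hP] at h
  exact absurd h (by decide)

lemma ind_zero {P : Prop} (h : ind P = 0) : ¬ P := by
  intro hP
  rw [ind_pos hP] at h
  exact absurd h (by decide)

lemma ind_congr {P Q : Prop} (h : P ↔ Q) : ind P = ind Q := by
  rw [propext h]

/-- at a vertex with three possible neighbours a circuit has none or two of them -/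
lemma deg_parity {V : Type*} {G : SimpleGraph V} (C : G.Subgraph) (hC : IsCircuit C)
    {v u₁ u₂ u₃ : V} (h12 : u₁ ≠ u₂) (h13 : u₁ ≠ u₃) (h23 : u₂ ≠ u₃)
    (hn : ∀ u, G.Adj v u → u = u₁ ∨ u = u₂ ∨ u = u₃) :
    ind (C.Adj v u₁) + ind (C.Adj v u₂) + ind (C.Adj v u₃) = 0 := by
  by_cases hv : v ∈ C.verts
  · have hc := hC.2 v hv
    have hmem : ∀ u, u ∈ C.neighborSet v ↔
        (u = u₁ ∧ C.Adj v u₁) ∨ (u = u₂ ∧ C.Adj v u₂) ∨ (u = u₃ ∧ C.Adj v u₃) := by
      intro u
      constructor
      · intro hu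
        have hu' : C.Adj v u := hu
        rcases hn u hu'.adj_sub with rfl | rfl | rfl
        · exact Or.inl ⟨rfl, hu'⟩
        · exact Or.inr (Or.inl ⟨rfl, hu'⟩)
        · exact Or.inr (Or.inr ⟨rfl, hu'⟩)
      · rintro (⟨rfl, h⟩ | ⟨rfl, h⟩ | ⟨rfl, h⟩) <;> exact h
    by_cases a1 : C.Adj v u₁ <;> by_cases a2 : C.Adj v u₂ <;> by_cases a3 : C.Adj v u₃
    · exfalso
      have hs : C.neighborSet v = {u₁, u₂, u₃} := by
        ext u
        rw [hmem u]
        simp [a1, a2, a3]
      rw [hs, Set.ncard_eq_three.2 ⟨u₁, u₂, u₃, h12, h13, h23, rfl⟩] at hc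
      exact absurd hc (by norm_num)
    · rw [ind_pos a1, ind_pos a2, ind_neg a3]; decide
    · rw [ind_pos a1, ind_neg a2, ind_pos a3]; decide
    · exfalso
      have hs : C.neighborSet v = {u₁} := by
        ext u
        rw [hmem u]
        simp [a1, a2, a3]
      rw [hs, Set.ncard_singleton] at hc
      exact absurd hc (by norm_num)
    · rw [ind_neg a1, ind_pos a2, ind_pos a3]; decide
    · exfalso
      have hs : C.neighborSet v = {u₂} := by
        ext u
        rw [hmem u]
        simp [a1, a2, a3]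
      rw [hs, Set.ncard_singleton] at hc
      exact absurd hc (by norm_num)
    · exfalso
      have hs : C.neighborSet v = {u₃} := by
        ext u
        rw [hmem u]
        simp [a1, a2, a3]
      rw [hs, Set.ncard_singleton] at hc
      exact absurd hc (by norm_num)
    · rw [ind_neg a1, ind_neg a2, ind_neg a3]; decide
  · have hno : ∀ u, ¬ C.Adj v u := fun u hu => hv (C.edge_vert hu)
    rw [ind_neg (hno _), ind_neg (hno _), ind_neg (hno _)]
    decide

lemma unique_of_le_one {κ : ℕ} {P : Fin κ → Prop} {m : ℕ} (h : {k | P k}.ncard = m) (hm : m ≤ 1) :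
    ∀ k k', P k → P k' → k = k' := by
  intro k k' hk hk'
  have h1 : {k | P k}.ncard ≤ 1 := h ▸ hm
  exact (Set.ncard_le_one (Set.toFinite _)).1 h1 k hk k' hk'

lemma none_of_zero {κ : ℕ} {P : Fin κ → Prop} (h : {k | P k}.ncard = 0) : ∀ k, ¬ P k := by
  intro k hk
  have h1 := (Set.ncard_eq_zero (Set.toFinite _)).1 h
  have h2 : k ∈ {k | P k} := hk
  rw [h1] at h2
  exact h2

lemma z2' : ∀ c : ZMod 2, c = 0 ∨ c = 1 := by decide

lemma step_ne {n : ℕ} (hn : 3 ≤ n) (i : ZMod n) : i - 1 ≠ i + 1 := by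
  intro h
  have h1 : (2 : ZMod n) = 0 := by linear_combination -h
  have h2 : ((2 : ℕ) : ZMod n) = 0 := by exact_mod_cast h1
  rw [ZMod.natCast_eq_zero_iff] at h2
  exact absurd (Nat.le_of_dvd (by norm_num) h2) (by omega)

/-- The circuits of a faithful circuit cover of a sub-weight `w'`, as pairs of edge sets on `C₁` and
`C₂`: they are even; they avoid the edges of weight `0`; they pass the matching edges of weight `0`
straight; at a matching edge of weight `2` they are `0` or a common letter. -/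
theorem letters {V : Type*} {G : SimpleGraph V} {M C₁ C₂ : G.Subgraph}
    (h : IsPermutationGraph G M C₁ C₂) {n : ℕ} (hn : 3 ≤ n) {x y : ZMod n → V}
    {p : Equiv.Perm (ZMod n)} (hx : Numb C₁ x) (hy : Numb C₂ y)
    (hM : ∀ i, M.Adj (x i) (y (p i))) (w' : Sym2 V → ℕ) (hw : HasFaithfulCircuitCover G w')
    (h1 : ∀ i, w' s(x i, x (i + 1)) ≤ 1) (h2 : ∀ j, w' s(y j, y (j + 1)) ≤ 1) :
    ∃ (κ : ℕ) (a b : Fin κ → ZMod n → ZMod 2) (ψ : ZMod n → K),
      (∀ k, Ev p (a k) (b k)) ∧
      (∀ k i, w' s(x i, x (i + 1)) = 0 → a k i = 0) ∧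
      (∀ k j, w' s(y j, y (j + 1)) = 0 → b k j = 0) ∧
      (∀ i, (ψ i).1 = 1) ∧
      (∀ k i, w' s(x i, y (p i)) = 0 → a k (i - 1) = a k i ∧ b k (p i - 1) = b k (p i)) ∧
      (∀ i, w' s(x i, y (p i)) = 2 →
        (∀ k, word p (a k) (b k) i = 0 ∨ word p (a k) (b k) i = ψ i) ∧
        ∃ k, word p (a k) (b k) i = ψ i) := by
  classical
  obtain ⟨κ, 𝒞, hC, hcov⟩ := hw
  have ix := hx.1
  have iy := hy.1
  have mx : ∀ i, x i ∈ C₁.verts := fun i => by rw [← hx.2.1]; exact ⟨i, rfl⟩
  have my : ∀ j, y j ∈ C₂.verts := fun j => by rw [← hy.2.1]; exact ⟨j, rfl⟩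
  have hxy : ∀ i j, x i ≠ y j := by
    intro i j hij
    exact Set.disjoint_left.1 h.disjoint (mx i) (hij ▸ my j)
  have hCx : ∀ i, C₁.Adj (x i) (x (i + 1)) := fun i => (hx.2.2 i _).2 (Or.inr rfl)
  have hCy : ∀ j, C₂.Adj (y j) (y (j + 1)) := fun j => (hy.2.2 j _).2 (Or.inr rfl)
  have hMx : ∀ i u, M.Adj (x i) u → u = y (p i) := by
    intro i u hu
    obtain ⟨w, hw, huniq⟩ := h.perfect.1 (h.perfect.2 (x i))
    exact (huniq u hu).trans (huniq _ (hM i)).symm
  have hMy : ∀ i u, M.Adj (y (p i)) u → u = x i := by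
    intro i u hu
    obtain ⟨w, hw, huniq⟩ := h.perfect.1 (h.perfect.2 (y (p i)))
    exact (huniq u hu).trans (huniq _ (hM i).symm).symm
  have hnx : ∀ i u, G.Adj (x i) u → u = x (i - 1) ∨ u = x (i + 1) ∨ u = y (p i) := by
    intro i u h1
    by_cases h2 : M.Adj (x i) u
    · exact Or.inr (Or.inr (hMx i u h2))
    · rcases (h.union _ _).1 ⟨h1, h2⟩ with h3 | h3
      · rcases (hx.2.2 i u).1 h3 with h4 | h4
        · exact Or.inl h4
        · exact Or.inr (Or.inl h4)
      · exact absurd (C₂.edge_vert h3) (Set.disjoint_left.1 h.disjoint (mx i))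
  have hny : ∀ i u, G.Adj (y (p i)) u → u = y (p i - 1) ∨ u = y (p i + 1) ∨ u = x i := by
    intro i u h1
    by_cases h2 : M.Adj (y (p i)) u
    · exact Or.inr (Or.inr (hMy i u h2))
    · rcases (h.union _ _).1 ⟨h1, h2⟩ with h3 | h3
      · exact absurd (my (p i)) (Set.disjoint_left.1 h.disjoint (C₁.edge_vert h3))
      · rcases (hy.2.2 (p i) u).1 h3 with h4 | h4
        · exact Or.inl h4
        · exact Or.inr (Or.inl h4)
  -- indicators
  set a : Fin κ → ZMod n → ZMod 2 := fun k i => ind ((𝒞 k).Adj (x i) (x (i + 1))) with ha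
  set b : Fin κ → ZMod n → ZMod 2 := fun k j => ind ((𝒞 k).Adj (y j) (y (j + 1))) with hb
  set m : Fin κ → ZMod n → ZMod 2 := fun k i => ind ((𝒞 k).Adj (x i) (y (p i))) with hm
  have ham : ∀ k i, a k (i - 1) + a k i = m k i := by
    intro k i
    have e1 := deg_parity (𝒞 k) (hC k) (v := x i) (u₁ := x (i - 1)) (u₂ := x (i + 1)) (u₃ := y (p i))
      (fun hh => step_ne hn i (ix hh)) (hxy _ _) (hxy _ _) (hnx i)
    have e2 : ind ((𝒞 k).Adj (x i) (x (i - 1))) = a k (i - 1) := by
      show _ = ind _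
      apply ind_congr
      rw [sub_add_cancel]
      exact ⟨fun hh => hh.symm, fun hh => hh.symm⟩
    rw [e2] at e1
    have e3 : a k (i - 1) + a k i + m k i = 0 := e1
    have e4 : ∀ c d f : ZMod 2, c + d + f = 0 → c + d = f := by decide
    exact e4 _ _ _ e3
  have hbm : ∀ k i, b k (p i - 1) + b k (p i) = m k i := by
    intro k i
    have e1 := deg_parity (𝒞 k) (hC k) (v := y (p i)) (u₁ := y (p i - 1)) (u₂ := y (p i + 1))
      (u₃ := x i) (fun hh => step_ne hn (p i) (iy hh)) (fun hh => hxy _ _ hh.symm)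
      (fun hh => hxy _ _ hh.symm) (hny i)
    have e2 : ind ((𝒞 k).Adj (y (p i)) (y (p i - 1))) = b k (p i - 1) := by
      show _ = ind _
      apply ind_congr
      rw [sub_add_cancel]
      exact ⟨fun hh => hh.symm, fun hh => hh.symm⟩
    have e5 : ind ((𝒞 k).Adj (y (p i)) (x i)) = m k i := by
      apply ind_congr
      exact ⟨fun hh => hh.symm, fun hh => hh.symm⟩
    rw [e2, e5] at e1
    have e3 : b k (p i - 1) + b k (p i) + m k i = 0 := e1
    have e4 : ∀ c d f : ZMod 2, c + d + f = 0 → c + d = f := by decide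
    exact e4 _ _ _ e3
  have hev : ∀ k, Ev p (a k) (b k) := fun k i => (ham k i).trans (hbm k i).symm
  -- the weights
  have gx : ∀ i, s(x i, x (i + 1)) ∈ G.edgeSet := fun i => (hCx i).adj_sub
  have gy : ∀ i, s(y i, y (i + 1)) ∈ G.edgeSet := fun i => (hCy i).adj_sub
  have gm : ∀ i, s(x i, y (p i)) ∈ G.edgeSet := fun i => (hM i).adj_sub
  have cx : ∀ i, {k | (𝒞 k).Adj (x i) (x (i + 1))}.ncard = w' s(x i, x (i + 1)) := fun i =>
    hcov _ (gx i)
  have cy : ∀ j, {k | (𝒞 k).Adj (y j) (y (j + 1))}.ncard = w' s(y j, y (j + 1)) := fun j =>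
    hcov _ (gy j)
  have cm : ∀ i, {k | (𝒞 k).Adj (x i) (y (p i))}.ncard = w' s(x i, y (p i)) := fun i =>
    hcov _ (gm i)
  have ux : ∀ i k k', a k i = 1 → a k' i = 1 → k = k' := fun i k k' e1 e2 =>
    unique_of_le_one (cx i) (h1 i) k k' (ind_one e1) (ind_one e2)
  have uy : ∀ j k k', b k j = 1 → b k' j = 1 → k = k' := fun j k k' e1 e2 =>
    unique_of_le_one (cy j) (h2 j) k k' (ind_one e1) (ind_one e2)
  -- the letters
  have key : ∀ i, w' s(x i, y (p i)) = 2 → ∃ k₀, m k₀ i = 1 ∧
      ∀ k, word p (a k) (b k) i = 0 ∨ word p (a k) (b k) i = word p (a k₀) (b k₀) i := by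
    intro i hi
    obtain ⟨k₀, k₁, hne, hset⟩ := Set.ncard_eq_two.1 ((cm i).trans hi)
    have m0 : m k₀ i = 1 := by
      apply ind_pos
      have : k₀ ∈ {k | (𝒞 k).Adj (x i) (y (p i))} := by rw [hset]; simp
      exact this
    have m1 : m k₁ i = 1 := by
      apply ind_pos
      have : k₁ ∈ {k | (𝒞 k).Adj (x i) (y (p i))} := by rw [hset]; simp
      exact this
    have sumx : a k₀ i + a k₁ i = 1 := by
      have e0 := ham k₀ i
      have e1 := ham k₁ i
      rw [m0] at e0
      rw [m1] at e1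
      rcases z2' (a k₀ i) with f0 | f0 <;> rcases z2' (a k₁ i) with f1 | f1
      · rw [f0, add_zero] at e0
        rw [f1, add_zero] at e1
        exact absurd (ux _ _ _ e0 e1) hne
      · rw [f0, f1]; decide
      · rw [f0, f1]; decide
      · exact absurd (ux _ _ _ f0 f1) hne
    have sumy : b k₀ (p i) + b k₁ (p i) = 1 := by
      have e0 := hbm k₀ i
      have e1 := hbm k₁ i
      rw [m0] at e0
      rw [m1] at e1
      rcases z2' (b k₀ (p i)) with f0 | f0 <;> rcases z2' (b k₁ (p i)) with f1 | f1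
      · rw [f0, add_zero] at e0
        rw [f1, add_zero] at e1
        exact absurd (uy _ _ _ e0 e1) hne
      · rw [f0, f1]; decide
      · rw [f0, f1]; decide
      · exact absurd (uy _ _ _ f0 f1) hne
    refine ⟨k₀, m0, fun k => ?_⟩
    by_cases hk0 : k = k₀
    · exact Or.inr (by rw [hk0])
    by_cases hk1 : k = k₁
    · right
      rw [hk1]
      simp only [word, Prod.mk.injEq]
      refine ⟨by rw [ham, ham, m0, m1], ?_⟩
      have e4 : ∀ c d f g : ZMod 2, c + d = 1 → f + g = 1 → d + g = c + f := by decide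
      exact e4 _ _ _ _ sumx sumy
    · left
      have hmk : m k i = 0 := by
        apply ind_neg
        intro hh
        have : k ∈ {k | (𝒞 k).Adj (x i) (y (p i))} := hh
        rw [hset] at this
        rcases this with h' | h'
        · exact hk0 h'
        · exact hk1 h'
      have ak : a k i = 0 := by
        rcases z2' (a k i) with f | f
        · exact f
        · exfalso
          rcases z2' (a k₀ i) with f0 | f0
          · rw [f0, zero_add] at sumx
            exact hk1 (ux _ _ _ f sumx)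
          · exact hk0 (ux _ _ _ f f0)
      have bk : b k (p i) = 0 := by
        rcases z2' (b k (p i)) with f | f
        · exact f
        · exfalso
          rcases z2' (b k₀ (p i)) with f0 | f0
          · rw [f0, zero_add] at sumy
            exact hk1 (uy _ _ _ f sumy)
          · exact hk0 (uy _ _ _ f f0)
      show (a k (i - 1) + a k i, a k i + b k (p i)) = 0
      rw [ham, hmk, ak, bk]
      rfl
  choose k₀ hk₀ hk₀' using key
  refine ⟨κ, a, b,
    fun i => if hi : w' s(x i, y (p i)) = 2 then word p (a (k₀ i hi)) (b (k₀ i hi)) i else (1, 0),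
    hev, ?_, ?_, ?_, ?_, ?_⟩
  · intro k i hi
    exact ind_neg (none_of_zero ((cx i).trans hi) k)
  · intro k i hi
    exact ind_neg (none_of_zero ((cy i).trans hi) k)
  · intro i
    by_cases hi : w' s(x i, y (p i)) = 2
    · simp only [dif_pos hi]
      show a (k₀ i hi) (i - 1) + a (k₀ i hi) i = 1
      rw [ham, hk₀ i hi]
    · simp only [dif_neg hi]
  · intro k i hi
    have hmk : m k i = 0 := ind_neg (none_of_zero ((cm i).trans hi) k)
    have e4 : ∀ c d : ZMod 2, c + d = 0 → c = d := by decide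
    refine ⟨e4 _ _ ?_, e4 _ _ ?_⟩
    · rw [ham, hmk]
    · rw [hbm, hmk]
  · intro i hi
    simp only [dif_pos hi]
    exact ⟨hk₀' i hi, k₀ i hi, rfl⟩

end Pool.Agent.H6.Her
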